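import Pool.Agent.H.MP_ca7272_al.G

set_option autoImplicit false

namespace Pool.Agent.Results.MP_ca7272_al.Yes

theorem result (n : ℕ) (p : MvPolynomial (Fin 2) ℂ) (hn : p.totalDegree = n)
    (hs : ∀ x y : ℂ, 0 < x.im → 0 < y.im → MvPolynomial.eval ![x, y] p ≠ 0)
    (hp : ∀ m ∈ p.support, m 0 + m 1 ≡ n [MOD 2])
    (h1 : MvPolynomial.eval ![1, 0] (MvPolynomial.homogeneousComponent n p) ≠ 0)
    (h2 : MvPolynomial.eval ![0, 1] (MvPolynomial.homogeneousComponent n p) ≠ 0) :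
    ∃ (A B₁ B₂ : Matrix (Fin n) (Fin n) ℝ) (c : ℂ),
      A.transpose = -A ∧ B₁.PosDef ∧ B₂.PosDef ∧ c ≠ 0 ∧
      p = MvPolynomial.C c * Matrix.det (Matrix.of fun i j : Fin n =>
        MvPolynomial.C (A i j : ℂ) + MvPolynomial.C Complex.I *
          (MvPolynomial.X 0 * MvPolynomial.C (B₁ i j : ℂ) +
            MvPolynomial.X 1 * MvPolynomial.C (B₂ i j : ℂ))) := by
  obtain ⟨A, B, c, hA, hB, hc, h⟩ := Pool.Agent.H.MP_ca7272_al.main hn hs hp h1 h2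
  refine ⟨A, 1, B, c, hA, Matrix.PosDef.one, hB, hc, MvPolynomial.funext_set
    (fun _ => Complex.ofReal '' Set.Ioi 0)
    (fun _ => (Set.Ioi_infinite 0).image Complex.ofReal_injective.injOn) fun v hv => ?_⟩
  obtain ⟨y, hy, e⟩ := hv 1 trivial
  obtain ⟨x, rfl⟩ : ∃ x : ℂ, v = ![x, (y : ℂ)] := ⟨v 0, by
    ext i
    fin_cases i
    exacts [rfl, e.symm]⟩
  rw [h _ y hy, map_mul, MvPolynomial.eval_C, RingHom.map_det]
  congr 2
  ext i j
  simp

end Pool.Agent.Results.MP_ca7272_al.Yes
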